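import Pool.Agent.Lib.MP_5ffd28_gt.FE.Free

/-! A continuous surjection induces an open homomorphism of the free groups, or it is killed. -/

namespace Pool.Agent.Lib.MP_5ffd28_gt.FE

open Pool.Agent.Shared.Forcing Pool.Agent.Lib.MP_23bd8d_gt Pool.Agent.Lib.MP_5ffd28_gt.Cohen

universe u

set_option synthInstance.maxSize 4000

variable {B : Type u} [CompleteBooleanAlgebra B] {l : Cardinal.{u}} [hl : Fact l.IsInaccessible]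
  {U : Ultra B}

theorem md_img {F A H : Md l U} (hF : IsFn (El l U) F A H) (W : Md l U) :
    ∃ V, ∀ y, El l U y V ↔ ∃ x, El l U x W ∧ Maps (El l U) F x y := by
  obtain ⟨F, rfl⟩ := cls_surj F
  obtain ⟨W, rfl⟩ := cls_surj W
  obtain ⟨V, hV⟩ := md_sep (fun U y => ∃ x, El l U x (cls U W) ∧ Maps (El l U) (cls U F) x y) U H
  exact ⟨V, fun y => (hV y).trans ⟨fun h => h.2, fun ⟨x, a, b⟩ => ⟨(hF.mem b).2, x, a, b⟩⟩⟩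

theorem md_comp (hT : Tame B l) {f g X T Y S Z V : Md l U} (hf : Cts (El l U) f X T Y S)
    (hg : Cts (El l U) g Y S Z V) : ∃ k, Cts (El l U) k X T Z V ∧
      ∀ x z, Maps (El l U) k x z ↔ ∃ y, Maps (El l U) f x y ∧ Maps (El l U) g y z := by
  obtain ⟨f, rfl⟩ := cls_surj f
  obtain ⟨g, rfl⟩ := cls_surj g
  obtain ⟨k, k1, k2⟩ := md_rel hT
    (fun U x z => ∃ y, Maps (El l U) (cls U f) x y ∧ Maps (El l U) (cls U g) y z) U X Z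
  have k3 : ∀ x z, Maps (El l U) k x z ↔
      ∃ y, Maps (El l U) (cls U f) x y ∧ Maps (El l U) (cls U g) y z := fun x z =>
    (k2 x z).trans ⟨fun h => h.2.2, fun ⟨y, a, b⟩ => ⟨(hf.1.mem a).1, (hg.1.mem b).2, y, a, b⟩⟩
  refine ⟨k, ⟨⟨k1, fun x hx => ?_⟩, fun O W a b => ?_⟩, k3⟩
  · obtain ⟨y, a, b⟩ := hf.1.total hx
    obtain ⟨z, -, c⟩ := hg.1.total a
    refine ⟨z, (k3 x z).2 ⟨y, b, c⟩, fun z' h => ?_⟩
    obtain ⟨y', d, e⟩ := (k3 x z').1 h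
    exact hg.1.uniq e (hf.1.uniq b d ▸ c)
  · obtain ⟨N, hN⟩ := md_pre hg.1 O
    refine hf.2 N W (hg.2 O N a hN) fun x => (b x).trans ⟨?_, ?_⟩
    · rintro ⟨z, c, d⟩
      obtain ⟨y, e, e'⟩ := (k3 x z).1 d
      exact ⟨y, (hN y).2 ⟨z, c, e'⟩, e⟩
    · rintro ⟨y, c, d⟩
      obtain ⟨z, e, e'⟩ := (hN y).1 c
      exact ⟨z, e, (k3 x z).2 ⟨y, d, e'⟩⟩

theorem exists_hom {G A TG H C TH h : Md l U} (g1 : TopAb (El l U) G A TG)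
    (g2 : TopAb (El l U) H C TH) (h1 : IsFn (El l U) h G H) (h2 : Cohen.Additive (El l U) h A C) :
    ∃ φ : Car g1 →+ Car g2, ∀ a y, Maps (El l U) h a.1 y ↔ y = (φ a).1 :=
  ⟨AddMonoidHom.mk' (fun a => phi g2 h a.1) fun a b => Car.ext' ((op_iff _ _ _).1
    (h2 _ _ _ _ _ _ ((op_iff a b _).2 rfl) ((maps_phi g2 h1 a.2 _).2 rfl)
      ((maps_phi g2 h1 b.2 _).2 rfl) ((maps_phi g2 h1 (a + b).2 _).2 rfl))),
    fun a y => maps_phi g2 h1 a.2 y⟩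

/-- the quotient topology -/
theorem exists_quot (hT : Tame B l) {G A TG H C TH h : Md l U} (g1 : TopAb (El l U) G A TG)
    (g2 : TopAb (El l U) H C TH) (h1 : IsFn (El l U) h G H) (h2 : Cohen.Additive (El l U) h A C)
    (h3 : ∀ y, El l U y H → ∃ x, Maps (El l U) h x y) :
    ∃ Q, TopAb (El l U) H C Q ∧ Cts (El l U) h G TG H Q ∧ OpenMap (El l U) h TG Q := by
  obtain ⟨φ, hφ⟩ := exists_hom g1 g2 h1 h2
  obtain ⟨P, hP⟩ := md_power hT U H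
  obtain ⟨h, rfl⟩ := cls_surj h
  obtain ⟨TG, rfl⟩ := cls_surj TG
  obtain ⟨Q, hQ⟩ := md_sep (fun U V => ∀ x y, Maps (El l U) (cls U h) x y → El l U y V →
    ∃ W, El l U W (cls U TG) ∧ El l U x W ∧
      ∀ x' y', El l U x' W → Maps (El l U) (cls U h) x' y' → El l U y' V) U P
  have tG := g1.2.2.2.2.1
  have top : IsTop (El l U) H Q := by
    refine ⟨fun V hV => (hP V).1 ((hQ V).1 hV).1,
      (hQ _).2 ⟨(hP _).2 fun _ => id, fun x y a _ =>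
        ⟨_, tG.2.1, (h1.mem a).1, fun _ _ _ h => (h1.mem h).2⟩⟩,
      fun V V' Z a b c => (hQ Z).2 ⟨(hP Z).2 fun w hw =>
        (hP V).1 ((hQ V).1 a).1 w ((c w).1 hw).1, fun x y p s => ?_⟩,
      fun Y Z a c => (hQ Z).2 ⟨(hP Z).2 fun w hw => ?_, fun x y p s => ?_⟩⟩
    · obtain ⟨V1, a1, a2, a3⟩ := ((hQ V).1 a).2 x y p ((c y).1 s).1
      obtain ⟨V2, b1, b2, b3⟩ := ((hQ V').1 b).2 x y p ((c y).1 s).2
      obtain ⟨V3, c1⟩ := md_inter V1 V2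
      exact ⟨V3, tG.2.2.1 _ _ _ a1 b1 c1, (c1 x).2 ⟨a2, b2⟩, fun x' y' d e => (c y').2
        ⟨a3 x' y' ((c1 x').1 d).1 e, b3 x' y' ((c1 x').1 d).2 e⟩⟩
    · obtain ⟨V, a2, a3⟩ := (c w).1 hw
      exact (hP V).1 ((hQ V).1 (a V a2)).1 w a3
    · obtain ⟨V, a2, a3⟩ := (c y).1 s
      obtain ⟨V1, b1, b2, b3⟩ := ((hQ V).1 (a V a2)).2 x y p a3
      exact ⟨V1, b1, b2, fun x' y' d e => (c y').2 ⟨V, a2, b3 x' y' d e⟩⟩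
  have cts : Cts (El l U) (cls U h) G (cls U TG) H Q := by
    refine ⟨h1, fun V W a b => open_of_nhds tG fun x hx => ?_⟩
    obtain ⟨y, y1, y2⟩ := (b x).1 hx
    obtain ⟨W1, a1, a2, a3⟩ := ((hQ V).1 a).2 x y y2 y1
    refine ⟨W1, a1, a2, fun x' hx' => ?_⟩
    obtain ⟨y', -, e⟩ := h1.total (tG.1 W1 a1 x' hx')
    exact (b x').2 ⟨y', a3 x' y' hx' e, e⟩
  have opn : OpenMap (El l U) (cls U h) (cls U TG) Q := by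
    refine fun W V a b => (hQ V).2 ⟨(hP V).2 fun y hy => ?_, fun x y p s => ?_⟩
    · obtain ⟨x, -, e⟩ := (b y).1 hy
      exact (h1.mem e).2
    obtain ⟨w, w1, w2⟩ := (b y).1 s
    obtain ⟨x, rfl⟩ : ∃ c : Car g1, c.1 = x := ⟨⟨x, (h1.mem p).1⟩, rfl⟩
    obtain ⟨w, rfl⟩ : ∃ c : Car g1, c.1 = w := ⟨⟨w, (h1.mem w2).1⟩, rfl⟩
    have e : φ x = φ w := Car.ext' (((hφ x y).1 p).symm.trans ((hφ w y).1 w2))
    obtain ⟨N, N', c1, -, c3, c4, c5⟩ := g1.2.2.2.2.2 x.1 (x - w).1 w.1 W (x - w).2 w.2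
      ((op_iff w (x - w) _).2 (by rw [add_sub_cancel])) a w1
    refine ⟨N, c1, c3, fun x' y' d e' => ?_⟩
    obtain ⟨x', rfl⟩ : ∃ c : Car g1, c.1 = x' := ⟨⟨x', (h1.mem e').1⟩, rfl⟩
    refine (b y').2 ⟨(x' - (x - w)).1, c5 _ _ _ d c4 (Car.mem _)
      ((op_iff _ (x - w) _).2 (by rw [sub_add_cancel])), (hφ _ _).2 ?_⟩
    rw [map_sub, map_sub, e, sub_self, sub_zero]
    exact (hφ _ _).1 e'
  refine ⟨Q, ⟨g2.1, g2.2.1, g2.2.2.1, g2.2.2.2.1, top, fun x y z W hy hz o hW hzW => ?_⟩, cts, opn⟩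
  obtain ⟨b, hb⟩ := h3 y hy
  obtain ⟨c, hc⟩ := h3 z hz
  obtain ⟨b, rfl⟩ : ∃ c : Car g1, c.1 = b := ⟨⟨b, (h1.mem hb).1⟩, rfl⟩
  obtain ⟨c, rfl⟩ : ∃ d : Car g1, d.1 = c := ⟨⟨c, (h1.mem hc).1⟩, rfl⟩
  obtain ⟨W', hW'⟩ := md_pre h1 W
  obtain ⟨N, N', c1, c2, c3, c4, c5⟩ := g1.2.2.2.2.2 (c + b).1 b.1 c.1 W' b.2 c.2
    ((op_iff c b _).2 rfl) (cts.2 W W' hW hW') ((hW' _).2 ⟨z, hzW, hc⟩)
  obtain ⟨V, hV⟩ := md_img h1 N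
  obtain ⟨V', hV'⟩ := md_img h1 N'
  rw [(hφ _ _).1 hb, (hφ _ _).1 hc, op_iff, ← map_add] at o
  refine ⟨V, V', opn N V c1 hV, opn N' V' c2 hV', (hV x).2 ⟨_, c3, (hφ _ _).2 o⟩,
    (hV' y).2 ⟨_, c4, hb⟩, fun x' y' z' p q r s => ?_⟩
  obtain ⟨a', p1, p2⟩ := (hV x').1 p
  obtain ⟨b', q1, q2⟩ := (hV' y').1 q
  obtain ⟨a', rfl⟩ : ∃ c : Car g1, c.1 = a' := ⟨⟨a', (h1.mem p2).1⟩, rfl⟩
  obtain ⟨b', rfl⟩ : ∃ c : Car g1, c.1 = b' := ⟨⟨b', (h1.mem q2).1⟩, rfl⟩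
  obtain ⟨z', rfl⟩ : ∃ c : Car g2, c.1 = z' := ⟨⟨z', r⟩, rfl⟩
  obtain ⟨z1, r1, r2⟩ := (hW' _).1 (c5 _ _ (a' - b').1 p1 q1 (Car.mem _)
    ((op_iff _ b' _).2 (by rw [sub_add_cancel])))
  rw [(hφ _ _).1 p2, (hφ _ _).1 q2, op_iff] at s
  rw [(hφ _ _).1 r2, map_sub, Car.ext' s, add_sub_cancel_right] at r1
  exact r1

theorem quo_or_kill (hT : Tame B l) {X T S TS f : Md l U} (hX : IsTop (El l U) X T)
    (hS : IsTop (El l U) S TS) (hf : Cts (El l U) f X T S TS)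
    (on : ∀ y, El l U y S → ∃ x, Maps (El l U) f x y) :
    (∃ G A TG i H C TH j h, Free (El l U) X T G A TG i ∧ Free (El l U) S TS H C TH j ∧
      Cts (El l U) h G TG H TH ∧ Cohen.Additive (El l U) h A C ∧
      (∀ y, El l U y H → ∃ x, Maps (El l U) h x y) ∧ OpenMap (El l U) h TG TH) ∨
    ∃ Z₁ Z₂ t, Shared.Forcing.Sub (El l U) Z₁ S ∧ Shared.Forcing.Sub (El l U) Z₂ S ∧
      (∀ y, El l U y Z₁ → El l U y Z₂ → False) ∧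
      (∀ W, (∀ x, El l U x W ↔ ∃ y, El l U y Z₁ ∧ Maps (El l U) f x y) → El l U W T) ∧
      (∀ W, (∀ x, El l U x W ↔ ∃ y, El l U y Z₂ ∧ Maps (El l U) f x y) → El l U W T) ∧
      El l U t Z₁ ∧ ∀ N, El l U N TS → El l U t N → ∃ s, El l U s Z₂ ∧ El l U s N := by
  obtain ⟨G, A, TG, i, fX⟩ := free_exists hT U hX
  obtain ⟨H, C, TH, j, fS⟩ := free_exists hT U hS
  obtain ⟨k, k1, k2⟩ := md_comp hT hf fS.2.1
  obtain ⟨h, h1, h2, h3⟩ := fX.2.2.2 H C TH k fS.1 k1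
  have g1 := fX.1
  have g2 := fS.1
  have onto : ∀ y, El l U y H → ∃ x, Maps (El l U) h x y := by
    obtain ⟨φ, hφ⟩ := exists_hom g1 g2 h1.1 h2
    obtain ⟨K, hK⟩ := md_img h1.1 G
    have := fS.2.2.1 K (fun y hy => let ⟨_, _, e⟩ := (hK y).1 hy; (h1.1.mem e).2)
      ⟨_, (hK _).2 ⟨_, (0 : Car g1).2, (hφ 0 _).2 rfl⟩⟩ (fun x y z p q r s => ?_) fun s y e => ?_
    · exact fun y hy => let ⟨x, _, e⟩ := (hK y).1 (this y hy); ⟨x, e⟩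
    · obtain ⟨a, p1, p2⟩ := (hK x).1 p
      obtain ⟨b, q1, q2⟩ := (hK y).1 q
      obtain ⟨a, rfl⟩ : ∃ c : Car g1, c.1 = a := ⟨⟨a, p1⟩, rfl⟩
      obtain ⟨b, rfl⟩ : ∃ c : Car g1, c.1 = b := ⟨⟨b, q1⟩, rfl⟩
      obtain ⟨z, rfl⟩ : ∃ c : Car g2, c.1 = z := ⟨⟨z, r⟩, rfl⟩
      rw [(hφ _ _).1 p2, (hφ _ _).1 q2, op_iff] at s
      refine (hK _).2 ⟨(a - b).1, Car.mem _, (hφ _ _).2 ?_⟩
      rw [map_sub, Car.ext' s, add_sub_cancel_right]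
    · obtain ⟨x, hx⟩ := on s (fS.2.1.1.mem e).1
      obtain ⟨a, a1, a2⟩ := fX.2.1.1.total (hf.1.mem hx).1
      exact (hK y).2 ⟨a, a1, h3 x a y a2 ((k2 x y).2 ⟨s, hx, e⟩)⟩
  obtain ⟨Q, q1, q2, q3⟩ := exists_quot hT g1 g2 h1.1 h2 onto
  have jf := fS.2.1.1
  by_cases hj : Cts (El l U) j S TS H Q
  · refine Or.inl ⟨G, A, TG, i, H, C, TH, j, h, fX, fS, h1, h2, onto, fun W V a b => ?_⟩
    obtain ⟨F, F1, F2, F3⟩ := fS.2.2.2 H C Q j q1 hj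
    obtain ⟨φ, hφ⟩ := exists_hom g2 g2 F1.1 F2
    obtain ⟨F, rfl⟩ := cls_surj F
    obtain ⟨K, hK⟩ := md_sep (fun U y => Maps (El l U) (cls U F) y y) U H
    have idF := fS.2.2.1 K (fun y hy => ((hK y).1 hy).1)
      ⟨_, (hK _).2 ⟨(0 : Car g2).2, (hφ 0 _).2 (by rw [map_zero])⟩⟩ (fun x y z p q r s => ?_)
      fun s y e => (hK y).2 ⟨(jf.mem e).2, F3 s y y e e⟩
    · have hV := q3 W V a b
      exact F1.2 V V hV fun y => ⟨fun hy => ⟨y, hy, ((hK y).1 (idF y (q1.2.2.2.2.1.1 V hV y hy))).2⟩,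
        fun ⟨z, c, d⟩ => F1.1.uniq d ((hK y).1 (idF y (F1.1.mem d).1)).2 ▸ c⟩
    · obtain ⟨x, rfl⟩ : ∃ c : Car g2, c.1 = x := ⟨⟨x, ((hK x).1 p).1⟩, rfl⟩
      obtain ⟨y, rfl⟩ : ∃ c : Car g2, c.1 = y := ⟨⟨y, ((hK y).1 q).1⟩, rfl⟩
      obtain ⟨z, rfl⟩ : ∃ c : Car g2, c.1 = z := ⟨⟨z, r⟩, rfl⟩
      have e1 : x = φ x := Car.ext' ((hφ _ _).1 ((hK _).1 p).2)
      have e2 : y = φ y := Car.ext' ((hφ _ _).1 ((hK _).1 q).2)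
      have e3 : z = x - y := by rw [Car.ext' ((op_iff z y _).1 s), add_sub_cancel_right]
      refine (hK _).2 ⟨r, (hφ _ _).2 ?_⟩
      rw [e3, map_sub, ← e1, ← e2]
  right
  have pre : ∀ O Z, El l U O Q → (∀ s, El l U s Z ↔ ∃ y, El l U y O ∧ Maps (El l U) j s y) →
      ∀ W, (∀ x, El l U x W ↔ ∃ y, El l U y Z ∧ Maps (El l U) f x y) → El l U W T := by
    intro O Z a b W c
    obtain ⟨N, hN⟩ := md_pre h1.1 O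
    refine fX.2.1.2 N W (q2.2 O N a hN) fun x => (c x).trans ⟨?_, ?_⟩
    · rintro ⟨s, d, e⟩
      obtain ⟨y, d1, d2⟩ := (b s).1 d
      obtain ⟨g, -, a2⟩ := fX.2.1.1.total (hf.1.mem e).1
      exact ⟨g, (hN g).2 ⟨y, d1, h3 x g y a2 ((k2 x y).2 ⟨s, e, d2⟩)⟩, a2⟩
    · rintro ⟨g, d, e⟩
      obtain ⟨y, d1, d2⟩ := (hN g).1 d
      obtain ⟨s, s1, s2⟩ := hf.1.total (fX.2.1.1.mem e).1
      obtain ⟨y', -, s3⟩ := jf.total s1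
      exact ⟨s, (b s).2 ⟨y', h1.1.uniq d2 (h3 x g y' e ((k2 x y').2 ⟨s, s2, s3⟩)) ▸ d1, s3⟩, s2⟩
  obtain ⟨V, W, hV, hW, t, ht, bad⟩ : ∃ V W, El l U V Q ∧
      (∀ s, El l U s W ↔ ∃ y, El l U y V ∧ Maps (El l U) j s y) ∧ ∃ t, El l U t W ∧
      ∀ N, El l U N TS → El l U t N → ∃ s, El l U s N ∧ ¬ El l U s W := by
    by_contra hn
    refine hj ⟨jf, fun V W a b => open_of_nhds hS fun t ht => ?_⟩
    by_contra hn'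
    refine hn ⟨V, W, a, b, t, ht, fun N c d => ?_⟩
    by_contra hn''
    exact hn' ⟨N, c, d, fun s hs => by_contra fun e => hn'' ⟨s, hs, e⟩⟩
  obtain ⟨y0, y1, y2⟩ := (hW t).1 ht
  obtain ⟨y0, rfl⟩ : ∃ c : Car g2, c.1 = y0 := ⟨⟨y0, (jf.mem y2).2⟩, rfl⟩
  obtain ⟨U1, V1, a1, a2, a3, a4, a5⟩ := q1.2.2.2.2.2 y0.1 (0 : Car g2).1 y0.1 V (Car.mem _) y0.2
    ((op_iff y0 0 _).2 (by rw [add_zero])) hV y1
  obtain ⟨Q, rfl⟩ := cls_surj Q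
  obtain ⟨U1, rfl⟩ := cls_surj U1
  obtain ⟨O2, hO⟩ := md_sep (fun U z => ∃ N, El l U N (cls U Q) ∧ El l U z N ∧
    ∀ x, El l U x N → ¬ El l U x (cls U U1)) U H
  have tQ := q1.2.2.2.2.1
  have o2 : El l U O2 (cls U Q) := open_of_nhds tQ fun z hz =>
    let ⟨_, N, b1, b2, b3⟩ := (hO z).1 hz
    ⟨N, b1, b2, fun x hx => (hO x).2 ⟨tQ.1 N b1 x hx, N, b1, hx, b3⟩⟩
  obtain ⟨Z1, z1⟩ := md_pre jf (cls U U1)
  obtain ⟨Z2, z2⟩ := md_pre jf O2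
  refine ⟨Z1, Z2, t, fun s hs => let ⟨_, _, e⟩ := (z1 s).1 hs; (jf.mem e).1,
    fun s hs => let ⟨_, _, e⟩ := (z2 s).1 hs; (jf.mem e).1, fun s p q => ?_, pre _ _ a1 z1,
    pre _ _ o2 z2, (z1 t).2 ⟨_, a3, y2⟩, fun N c d => ?_⟩
  · obtain ⟨y, p1, p2⟩ := (z1 s).1 p
    obtain ⟨y', p3, p4⟩ := (z2 s).1 q
    obtain ⟨-, N, -, b2, b3⟩ := (hO y').1 p3
    exact b3 y' b2 (jf.uniq p2 p4 ▸ p1)
  · obtain ⟨s, s1, s2⟩ := bad N c d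
    obtain ⟨z, s3, s4⟩ := jf.total (hS.1 N c s s1)
    obtain ⟨z, rfl⟩ : ∃ c : Car g2, c.1 = z := ⟨⟨z, s3⟩, rfl⟩
    obtain ⟨N1, N2, b1, -, b3, b4, b5⟩ := q1.2.2.2.2.2 z.1 z.1 (0 : Car g2).1 V1 z.2 (Car.mem _)
      ((op_iff 0 z _).2 (by rw [zero_add])) a2 a4
    refine ⟨s, (z2 s).2 ⟨_, (hO _).2 ⟨s3, N1, b1, b3, fun x p q => s2 ((hW s).2 ⟨_, ?_, s4⟩)⟩, s4⟩, s1⟩
    obtain ⟨x, rfl⟩ : ∃ c : Car g2, c.1 = x := ⟨⟨x, tQ.1 N1 b1 x p⟩, rfl⟩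
    exact a5 _ (x - z).1 _ q (b5 _ _ _ p b4 (Car.mem _)
      ((op_iff _ z _).2 (by rw [sub_add_cancel]))) z.2 ((op_iff z _ _).2 (by rw [add_sub_cancel]))

end Pool.Agent.Lib.MP_5ffd28_gt.FE
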