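import Pool.Agent.Lib.MP_5ffd28_gt.FE.Word

/-! Free abelian topological groups exist in every Boolean extension. -/

namespace Pool.Agent.Lib.MP_5ffd28_gt.FE

open Pool.Agent.Shared.Forcing Pool.Agent.Lib.MP_23bd8d_gt Pool.Agent.Lib.MP_5ffd28_gt.Cohen
open Cardinal

universe u

set_option synthInstance.maxSize 4000

variable {B : Type u} [CompleteBooleanAlgebra B] {l : Cardinal.{u}} [hl : Fact l.IsInaccessible]

/-- signed words in the listed elements of a small name -/
abbrev Wd (x : SName B l) : Type u := List (x.idx × Bool)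

omit [CompleteBooleanAlgebra B] in
theorem wd_lt (x : SName B l) : #(Wd x) < l := by
  refine (mk_list_le_max _).trans_lt (max_lt aleph0_lt_l ?_)
  rw [mk_prod, lift_uzero]
  exact mul_lt_of_lt aleph0_lt_l.le x.card_idx (lt_of_lt_of_le (by simp) aleph0_lt_l.le)

omit [CompleteBooleanAlgebra B] in
theorem exists_code (x : SName B l) : Nonempty (Wd x ↪ OT l) := by
  rw [← Cardinal.le_def, mk_toType, card_ord]
  exact (wd_lt x).le

/-- all letters of the word are elements of `x` -/
def Val (x : SName B l) (U : Ultra B) (w : Wd x) : Prop :=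
  ∀ p ∈ w, El l U (sm U (x.fn p.1)) (sm U x)

/-- the two words have the same value under every continuous map to a topological group -/
def Rel (x : SName B l) (T : HName B l) (U : Ultra B) (v w : Wd x) : Prop :=
  ∀ H C V f, TopAb (El l U) H C V → Cts (El l U) f (sm U x) (cls U T) H V → ∀ z,
    Ev (El l U) (fun j => sm U (x.fn j)) H C f v z ↔ Ev (El l U) (fun j => sm U (x.fn j)) H C f w z

instance decEv (x : SName B l) (H C f Z : HName B l) (w : Wd x) : Dec fun U =>
    Ev (El l U) (fun j => sm U (x.fn j)) (cls U H) (cls U C) (cls U f) w (cls U Z) := by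
  induction w generalizing Z with
  | nil => unfold Ev; infer_instance
  | cons p w ih => unfold Ev; infer_instance

instance decVal (x : SName B l) (w : Wd x) : Dec fun U => Val x U w := by
  unfold Val; infer_instance

instance decRel (x : SName B l) (T : HName B l) (v w : Wd x) : Dec fun U => Rel x T U v w := by
  unfold Rel; infer_instance

variable {x : SName B l} {T : HName B l} {U : Ultra B} {v w : Wd x}

theorem maps_phi {f X H C V a : Md l U} (h : TopAb (El l U) H C V) (hf : IsFn (El l U) f X H)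
    (ha : El l U a X) (y : Md l U) : Maps (El l U) f a y ↔ y = (phi h f a).1 := by
  have hx := hf.total ha
  rw [phi, dif_pos hx]
  exact ⟨fun e => hf.uniq e hx.choose_spec.2, fun e => e ▸ hx.choose_spec.2⟩

theorem Val.ev {f H C V : Md l U} (hw : Val x U w) (h : TopAb (El l U) H C V)
    (hf : IsFn (El l U) f (sm U x) H) (z : Md l U) :
    Ev (El l U) (fun j => sm U (x.fn j)) H C f w z ↔
      z = (sg (fun j => phi h f (sm U (x.fn j))) w).1 :=
  ev_iff h w (fun p hp => maps_phi h hf (hw p hp)) z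

theorem rel_iff (hv : Val x U v) (hw : Val x U w) : Rel x T U v w ↔
    ∀ H C V f (h : TopAb (El l U) H C V), Cts (El l U) f (sm U x) (cls U T) H V →
      sg (fun j => phi h f (sm U (x.fn j))) v = sg (fun j => phi h f (sm U (x.fn j))) w := by
  refine ⟨fun r H C V f h hf => Car.ext' ?_, fun r H C V f h hf z => ?_⟩
  · exact (hw.ev h hf.1 _).1 ((r H C V f h hf _).1 ((hv.ev h hf.1 _).2 rfl))
  · rw [hv.ev h hf.1, hw.ev h hf.1, r H C V f h hf]

omit hl in
theorem Val.nil : Val x U [] := fun _ h => absurd h List.not_mem_nil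

omit hl in
theorem Val.append (hv : Val x U v) (hw : Val x U w) : Val x U (v ++ w) := fun p hp =>
  (List.mem_append.1 hp).elim (hv p) (hw p)

omit hl in
theorem Val.ng (hw : Val x U w) : Val x U (ng w) := fun p hp => by
  obtain ⟨q, a, rfl⟩ := List.mem_map.1 hp
  exact hw q a

omit hl in
theorem Val.one {j : x.idx} (h : El l U (sm U (x.fn j)) (sm U x)) (b : Bool) : Val x U [(j, b)] :=
  fun p hp => by rw [List.mem_singleton.1 hp]; exact h

variable (x T) in
/-- the class of a word -/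
noncomputable def gN (w : Wd x) : SName B l :=
  SName.mk (Wd x) (wd_lt x) (fun v => chk B ((exists_code x).some v))
    fun v => bv fun U => Rel x T U v w

theorem g_eq : sm U (gN x T v) = sm U (gN x T w) ↔ Rel x T U v w := by
  have sub : ∀ {v w : Wd x}, Rel x T U v w → ∀ z, El l U z (sm U (gN x T v)) →
      El l U z (sm U (gN x T w)) := by
    intro v w r z hz
    obtain ⟨Z, rfl⟩ := cls_surj z
    revert r
    refine wlog_mk Z (wd_lt x) _ _ U hz ?_
    intro U s hs e r
    rw [e]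
    exact mem_mk (wd_lt x) (fun v => chk B ((exists_code x).some v))
      (fun v => bv fun U => Rel x T U v w) s (bv_mem.2 fun H C V f a b z =>
      (bv_mem.1 hs H C V f a b z).trans (r H C V f a b z))
  refine ⟨fun e => ?_, fun r => md_ext U _ _ fun z =>
    ⟨sub r z, sub (fun H C V f a b z => (r H C V f a b z).symm) z⟩⟩
  have h : El l U (ck U ((exists_code x).some v)) (sm U (gN x T v)) :=
    mem_mk (wd_lt x) (fun v => chk B ((exists_code x).some v)) _ v
      (bv_mem.2 fun _ _ _ _ _ _ _ => Iff.rfl)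
  rw [e] at h
  refine wlog_mk _ (wd_lt x) _ _ U h ?_
  intro U s hs e
  obtain rfl := (exists_code x).some.injective (ck_inj e)
  exact bv_mem.1 hs

theorem g_of (hv : Val x U v) (hw : Val x U w)
    (h : ∀ (Γ : Type (u + 1)) [AddCommGroup Γ] (φ : x.idx → Γ), sg φ v = sg φ w) :
    sm U (gN x T v) = sm U (gN x T w) :=
  g_eq.2 ((rel_iff hv hw).2 fun _ _ _ _ _ _ => h _ _)

variable (x T) in
/-- the group -/
noncomputable def GN : SName B l :=
  SName.mk (Wd x) (wd_lt x) (gN x T) fun w => bv fun U => Val x U w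

variable (x T) in
/-- the operation -/
noncomputable def AN : SName B l :=
  relName (prod_lt_l (wd_lt x) (wd_lt x)) (fun p => kpName (gN x T p.1) (gN x T p.2))
    (fun p => gN x T (p.1 ++ p.2)) fun p => bv fun U => Val x U p.1 ∧ Val x U p.2

variable (x T) in
/-- the map from the space to the group -/
noncomputable def iN : SName B l :=
  relName x.card_idx x.fn (fun j => gN x T [(j, true)])
    fun j => bv fun U => El l U (sm U (x.fn j)) (sm U x)

theorem g_mem (hw : Val x U w) : El l U (sm U (gN x T w)) (sm U (GN x T)) :=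
  mem_mk (wd_lt x) (gN x T) _ w (bv_mem.2 hw)

@[elab_as_elim]
theorem wlog_G {Φ : Ultra B → Prop} (Z : HName B l) (U : Ultra B)
    (h : El l U (cls U Z) (sm U (GN x T))) [Dec Φ]
    (H : ∀ U w, Val x U w → cls U Z = sm U (gN x T w) → Φ U) : Φ U :=
  wlog_mk Z (wd_lt x) _ _ U h fun U w a b => H U w (bv_mem.1 a) b

theorem op_g (hv : Val x U v) (hw : Val x U w) (z : Md l U) :
    Op (El l U) (sm U (AN x T)) (sm U (gN x T v)) (sm U (gN x T w)) z ↔
      z = sm U (gN x T (v ++ w)) := by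
  refine ⟨fun ⟨p, a, b⟩ => ?_, fun e => e ▸ ⟨_, isKPair_kpName U _ _,
    maps_relName (prod_lt_l (wd_lt x) (wd_lt x)) (fun p => kpName (gN x T p.1) (gN x T p.2))
      (fun p => gN x T (p.1 ++ p.2)) _ (v, w) (bv_mem.2 ⟨hv, hw⟩)⟩⟩
  obtain ⟨Z, rfl⟩ := cls_surj z
  obtain ⟨P, rfl⟩ := cls_surj p
  revert hv hw a
  refine wlog_rel P Z (prod_lt_l (wd_lt x) (wd_lt x)) _ _ _ U b ?_
  intro U s hs e1 e2 hv hw a
  obtain ⟨s1, s2⟩ := bv_mem.1 hs
  rw [e1] at a
  obtain ⟨c1, c2⟩ := IsKPair.uniq (md_pair U) a (isKPair_kpName U _ _)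
  rw [e2, g_eq, rel_iff (s1.append s2) (hv.append hw)]
  intro H C V f h hf
  rw [sg_append, sg_append, (rel_iff hv s1).1 (g_eq.1 c1) H C V f h hf,
    (rel_iff hw s2).1 (g_eq.1 c2) H C V f h hf]

theorem abG : AbG (El l U) (sm U (GN x T)) (sm U (AN x T)) := by
  refine ⟨fun a b ha hb => ?_, fun a b c u v w ha hb hc => ?_, fun a b z ha hb => ?_,
    _, g_mem Val.nil, fun a ha => ?_⟩
  · obtain ⟨a, rfl⟩ := cls_surj a
    obtain ⟨b, rfl⟩ := cls_surj b
    revert hb
    refine wlog_G a U ha ?_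
    intro U v hv e hb
    revert hv e
    refine wlog_G b U hb ?_
    intro U w hw e' hv e
    rw [e, e']
    exact ⟨_, g_mem (hv.append hw), op_g hv hw⟩
  · obtain ⟨a, rfl⟩ := cls_surj a
    obtain ⟨b, rfl⟩ := cls_surj b
    obtain ⟨c, rfl⟩ := cls_surj c
    revert hb hc u v w
    refine wlog_G a U ha ?_
    intro U r hr e u v w hb
    revert hr e u v w
    refine wlog_G b U hb ?_
    intro U s hs e' hr e u v w hc
    revert hr e u v w hs e'
    refine wlog_G c U hc ?_
    intro U t ht e'' hs e' hr e u v w h1 h2 h3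
    rw [e, e'] at h1
    rw [e', e''] at h3
    rw [(op_g hr hs _).1 h1, e''] at h2
    rw [e, (op_g hs ht _).1 h3, op_g hr (hs.append ht), (op_g (hr.append hs) ht _).1 h2,
      List.append_assoc]
  · obtain ⟨a, rfl⟩ := cls_surj a
    obtain ⟨b, rfl⟩ := cls_surj b
    revert hb z
    refine wlog_G a U ha ?_
    intro U v hv e z hb
    revert hv e z
    refine wlog_G b U hb ?_
    intro U w hw e' hv e z h
    rw [e, e'] at h ⊢
    rw [op_g hw hv, (op_g hv hw _).1 h]
    exact g_of (hv.append hw) (hw.append hv) fun _ _ _ => by simp [add_comm]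
  · obtain ⟨a, rfl⟩ := cls_surj a
    refine wlog_G a U ha ?_
    intro U v hv e
    rw [e]
    exact ⟨(op_g hv Val.nil _).2 (by rw [List.append_nil]), _, g_mem hv.ng,
      (op_g hv hv.ng _).2 (g_of Val.nil (hv.append hv.ng) fun _ _ _ => by simp)⟩

theorem maps_i {j : x.idx} (h : El l U (sm U (x.fn j)) (sm U x)) :
    Maps (El l U) (sm U (iN x T)) (sm U (x.fn j)) (sm U (gN x T [(j, true)])) :=
  maps_relName x.card_idx x.fn (fun j => gN x T [(j, true)]) _ j (bv_mem.2 h)

theorem isFn_i : IsFn (El l U) (sm U (iN x T)) (sm U x) (sm U (GN x T)) := by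
  refine ⟨fun p hp => ?_, fun a ha => ?_⟩
  · obtain ⟨P, rfl⟩ := cls_surj p
    refine wlog_mk P x.card_idx _ _ U hp ?_
    intro U j hj e
    exact ⟨_, _, bv_mem.1 hj, g_mem (Val.one (bv_mem.1 hj) true), e ▸ isKPair_kpName U _ _⟩
  · obtain ⟨a, rfl⟩ := cls_surj a
    refine wlog_mem a x U ha ?_
    intro U j hj e
    have hj' := mem_intro x j hj
    refine ⟨_, e ▸ maps_i hj', fun y hy => ?_⟩
    obtain ⟨y, rfl⟩ := cls_surj y
    revert hj' e
    refine wlog_rel a y x.card_idx _ _ _ U hy ?_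
    intro U k hk e1 e2 e hj'
    rw [e2, g_eq, rel_iff (Val.one (bv_mem.1 hk) true) (Val.one hj' true)]
    intro H C V f h _
    rw [sg_true, sg_true, ← e1, e]

theorem gen (K : Md l U) (h1 : Shared.Forcing.Sub (El l U) K (sm U (GN x T))) (h2 : ∃ y, El l U y K)
    (h3 : ∀ a y z, El l U a K → El l U y K → El l U z (sm U (GN x T)) →
      Op (El l U) (sm U (AN x T)) z y a → El l U z K)
    (h4 : ∀ a y, Maps (El l U) (sm U (iN x T)) a y → El l U y K) :
    Shared.Forcing.Sub (El l U) (sm U (GN x T)) K := by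
  intro z hz
  obtain ⟨y, h2⟩ := h2
  obtain ⟨z, rfl⟩ := cls_surj z
  obtain ⟨y, rfl⟩ := cls_surj y
  obtain ⟨K, rfl⟩ := cls_surj K
  have hy := h1 _ h2
  revert h2 h3 h4 hy
  clear h1
  refine wlog_G z U hz ?_
  intro U w hw e h3 h4 h2 hy
  revert hw e h3 h4 h2
  refine wlog_G y U hy ?_
  intro U v hv e' hw e h3 h4 h2
  rw [e]
  rw [e'] at h2
  have h0 := h3 _ _ _ h2 h2 (g_mem Val.nil) ((op_g Val.nil hv _).2 rfl)
  clear e
  induction w with
  | nil => exact h0
  | cons p w ih =>
    obtain ⟨j, b⟩ := p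
    have hw' : Val x U w := fun p hp => hw p (List.mem_cons_of_mem _ hp)
    have hj := hw (j, b) List.mem_cons_self
    have k1 := h4 _ _ (maps_i hj)
    cases b
    · exact h3 _ _ _ (ih hw') k1 (g_mem hw) ((op_g hw (Val.one hj true) _).2
        (g_of hw' (hw.append (Val.one hj true)) fun _ _ _ => by simp))
    · have k2 := h3 _ _ _ h0 (ih hw') (g_mem hw'.ng) ((op_g hw'.ng hw' _).2
        (g_of Val.nil (hw'.ng.append hw') fun _ _ _ => by simp))
      exact h3 _ _ _ k1 k2 (g_mem hw) ((op_g hw hw'.ng _).2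
        (g_of (Val.one hj true) (hw.append hw'.ng) fun _ _ _ => by simp))

variable (T) in
/-- the extension of `f` -/
noncomputable def FN (h : SName B l) (C f : HName B l) : SName B l :=
  relName (prod_lt_l (wd_lt x) h.card_idx) (fun p => gN x T p.1) (fun p => h.fn p.2)
    fun p => bv fun U => Val x U p.1 ∧ El l U (sm U (h.fn p.2)) (sm U h) ∧
      Ev (El l U) (fun j => sm U (x.fn j)) (sm U h) (cls U C) (cls U f) p.1 (sm U (h.fn p.2))

theorem maps_F {h : SName B l} {C V f : HName B l}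
    (k1 : TopAb (El l U) (sm U h) (cls U C) (cls U V))
    (k2 : Cts (El l U) (cls U f) (sm U x) (cls U T) (sm U h) (cls U V)) (hw : Val x U w)
    (z : Md l U) : Maps (El l U) (sm U (FN (x := x) T h C f)) (sm U (gN x T w)) z ↔
      z = (sg (fun j => phi k1 (cls U f) (sm U (x.fn j))) w).1 := by
  rw [← hw.ev k1 k2.1]
  obtain ⟨z, rfl⟩ := cls_surj z
  refine ⟨fun a => ?_, fun a => ?_⟩
  · revert k1 k2
    clear hw
    refine wlog_rel _ z (prod_lt_l (wd_lt x) h.card_idx) _ _ _ U a ?_
    intro U s hs e1 e2 k1 k2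
    rw [e2]
    exact (g_eq.1 e1 _ _ _ _ k1 k2 _).2 (bv_mem.1 hs).2.2
  · have hz : El l U (cls U z) (sm U h) := (hw.ev k1 k2.1 _).1 a ▸ Car.mem _
    revert hw a
    clear k1 k2
    refine wlog_mem z h U hz ?_
    intro U k hk e hw a
    rw [e] at a ⊢
    exact maps_relName (prod_lt_l (wd_lt x) h.card_idx) (fun p => gN x T p.1) (fun p => h.fn p.2)
      _ (w, k) (bv_mem.2 ⟨hw, mem_intro h k hk, a⟩)

theorem exists_ext {H C V f : Md l U} (k1 : TopAb (El l U) H C V)
    (k2 : Cts (El l U) f (sm U x) (cls U T) H V) :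
    ∃ F, Ext (El l U) (sm U (GN x T)) (sm U (AN x T)) (sm U (iN x T)) H C f F := by
  obtain ⟨H, rfl⟩ := cls_surj H
  obtain ⟨C, rfl⟩ := cls_surj C
  obtain ⟨V, rfl⟩ := cls_surj V
  obtain ⟨f, rfl⟩ := cls_surj f
  revert k1 k2
  refine wlog_small H U ?_
  intro U h e k1 k2
  rw [e] at k1 k2 ⊢
  have fn : IsFn (El l U) (sm U (FN (x := x) T h C f)) (sm U (GN x T)) (sm U h) := by
    refine ⟨fun p hp => ?_, fun a ha => ?_⟩
    · obtain ⟨P, rfl⟩ := cls_surj p
      clear k1 k2 e
      refine wlog_mk P (prod_lt_l (wd_lt x) h.card_idx) _ _ U hp ?_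
      intro U s hs e
      exact ⟨_, _, g_mem (bv_mem.1 hs).1, (bv_mem.1 hs).2.1, e ▸ isKPair_kpName U _ _⟩
    · obtain ⟨a, rfl⟩ := cls_surj a
      revert k1 k2
      clear e
      refine wlog_G a U ha ?_
      intro U w hw e k1 k2
      rw [e]
      exact ⟨_, (maps_F k1 k2 hw _).2 rfl, fun y hy => (maps_F k1 k2 hw y).1 hy⟩
  refine ⟨_, fn, fun a b c a' b' c' h1 h2 h3 => ?_, fun a y z h1 => ?_⟩
  · have ha := (fn.mem h2).1
    have hb := (fn.mem h3).1
    obtain ⟨a, rfl⟩ := cls_surj a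
    obtain ⟨b, rfl⟩ := cls_surj b
    clear e fn
    revert c a' b' c'
    revert k1 k2 hb
    refine wlog_G a U ha ?_
    intro U v hv e k1 k2 hb
    revert k1 k2 hv e
    refine wlog_G b U hb ?_
    intro U w hw e' hv e k1 k2 c a' b' c' h2 h3 h1 h4
    rw [e, e'] at h1
    rw [e] at h2
    rw [e'] at h3
    rw [(op_g hv hw _).1 h1] at h4
    rw [(maps_F k1 k2 hv _).1 h2, (maps_F k1 k2 hw _).1 h3, op_iff,
      (maps_F k1 k2 (hv.append hw) _).1 h4, sg_append]
  · obtain ⟨a, rfl⟩ := cls_surj a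
    obtain ⟨y, rfl⟩ := cls_surj y
    revert k1 k2 z
    clear e fn
    refine wlog_rel a y x.card_idx _ _ _ U h1 ?_
    intro U j hj e1 e2 k1 k2 z h2
    rw [e1] at h2
    rw [e2, maps_F k1 k2 (Val.one (bv_mem.1 hj) true), sg_true, sg_nil, add_zero]
    exact (maps_phi k1 k2.1 (bv_mem.1 hj) z).1 h2

/-- Every topological space of the extension has a free abelian topological group. -/
theorem free_exists (hT : Tame B l) (U : Ultra B) {X T : Md l U} (hX : IsTop (El l U) X T) :
    ∃ G A S i, Free (El l U) X T G A S i := by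
  obtain ⟨X, rfl⟩ := cls_surj X
  obtain ⟨T, rfl⟩ := cls_surj T
  revert hX
  refine wlog_small X U ?_
  intro U x e hX
  rw [e] at hX ⊢
  obtain ⟨S, h1, h2, h3⟩ := exists_top hT hX (abG (x := x) (T := T)) isFn_i
  refine ⟨_, _, S, _, h1, h2, gen, fun H C V f a b => ?_⟩
  obtain ⟨F, hF⟩ := exists_ext a b
  exact ⟨F, h3 H C V f F a b hF, hF.2⟩

end Pool.Agent.Lib.MP_5ffd28_gt.FE
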