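import Pool.Agent.Lib.MP_23bd8d_gt.Kit
import Pool.Agent.Lib.MP_5ffd28_gt.Cohen.Defs

/-! The least topology making all extending homomorphisms continuous, in a Boolean extension. -/

namespace Pool.Agent.Lib.MP_5ffd28_gt.FE

open Pool.Agent.Shared.Forcing Pool.Agent.Lib.MP_23bd8d_gt Pool.Agent.Lib.MP_5ffd28_gt.Cohen

universe u

set_option synthInstance.maxSize 4000

/-- the group part of `TopAb` -/
def AbG {M : Type u} (E : M → M → Prop) (G A : M) : Prop :=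
  (∀ x y, E x G → E y G → ∃ z, E z G ∧ ∀ z', Op E A x y z' ↔ z' = z) ∧
  (∀ x y z u v w, E x G → E y G → E z G → Op E A x y u → Op E A u z w → Op E A y z v →
    Op E A x v w) ∧
  (∀ x y z, E x G → E y G → Op E A x y z → Op E A y x z) ∧
  (∃ e, E e G ∧ ∀ x, E x G → Op E A x e x ∧ ∃ y, E y G ∧ Op E A x y e)

/-- `F` is an additive function on `G` with `F ∘ i = f` -/
def Ext {M : Type u} (E : M → M → Prop) (G A i H C f F : M) : Prop :=
  IsFn E F G H ∧ Cohen.Additive E F A C ∧ ∀ x y z, Maps E i x y → Maps E f x z → Maps E F y z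

/-- `W` is the preimage of an open set under an extending homomorphism -/
def Pre {M : Type u} (E : M → M → Prop) (X T G A i W : M) : Prop :=
  ∃ H C V f F O, TopAb E H C V ∧ Cts E f X T H V ∧ Ext E G A i H C f F ∧ E O V ∧
    ∀ y, E y W ↔ ∃ z, E z O ∧ Maps E F y z

variable {B : Type u} [CompleteBooleanAlgebra B] {l : Cardinal.{u}} [hl : Fact l.IsInaccessible]

instance decOp (a b c d : HName B l) :
    Dec fun U => Op (El l U) (cls U a) (cls U b) (cls U c) (cls U d) := by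
  unfold Op; infer_instance

instance decCts (a b c d e : HName B l) :
    Dec fun U => Cts (El l U) (cls U a) (cls U b) (cls U c) (cls U d) (cls U e) := by
  unfold Cts; infer_instance

instance decTopAb (a b c : HName B l) :
    Dec fun U => TopAb (El l U) (cls U a) (cls U b) (cls U c) := by
  unfold TopAb; infer_instance

instance decAdditive (a b c : HName B l) :
    Dec fun U => Cohen.Additive (El l U) (cls U a) (cls U b) (cls U c) := by
  unfold Cohen.Additive; infer_instance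

instance decFree (a b c d e f : HName B l) :
    Dec fun U => Free (El l U) (cls U a) (cls U b) (cls U c) (cls U d) (cls U e) (cls U f) := by
  unfold Free; infer_instance

instance decExt (a b c d e f g : HName B l) : Dec fun U =>
    Ext (El l U) (cls U a) (cls U b) (cls U c) (cls U d) (cls U e) (cls U f) (cls U g) := by
  unfold Ext; infer_instance

instance decPre (a b c d e f : HName B l) :
    Dec fun U => Pre (El l U) (cls U a) (cls U b) (cls U c) (cls U d) (cls U e) (cls U f) := by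
  unfold Pre; infer_instance

variable {U : Ultra B}

theorem md_inter (a b : Md l U) : ∃ c, ∀ z, El l U z c ↔ El l U z a ∧ El l U z b := by
  obtain ⟨b, rfl⟩ := cls_surj b
  exact md_sep (fun U z => El l U z (cls U b)) U a

theorem md_pre {F A H : Md l U} (hF : IsFn (El l U) F A H) (O : Md l U) :
    ∃ W, ∀ y, El l U y W ↔ ∃ z, El l U z O ∧ Maps (El l U) F y z := by
  obtain ⟨F, rfl⟩ := cls_surj F
  obtain ⟨O, rfl⟩ := cls_surj O
  obtain ⟨W, hW⟩ := md_sep (fun U y => ∃ z, El l U z (cls U O) ∧ Maps (El l U) (cls U F) y z) U A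
  exact ⟨W, fun y => (hW y).trans ⟨fun h => h.2, fun ⟨z, a, b⟩ => ⟨(hF.mem b).1, z, a, b⟩⟩⟩

theorem open_of_nhds {X T V : Md l U} (hT : IsTop (El l U) X T)
    (h : ∀ x, El l U x V → ∃ W, El l U W T ∧ El l U x W ∧ Sub (El l U) W V) : El l U V T := by
  obtain ⟨V, rfl⟩ := cls_surj V
  obtain ⟨S, hS⟩ := md_sep (fun U W => Sub (El l U) W (cls U V)) U T
  refine hT.2.2.2 S _ (fun W hW => ((hS W).1 hW).1) fun z => ⟨fun hz => ?_, ?_⟩
  · obtain ⟨W, a, b, c⟩ := h z hz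
    exact ⟨W, (hS W).2 ⟨a, c⟩, b⟩
  · rintro ⟨W, a, b⟩
    exact ((hS W).1 a).2 z b

theorem exists_top (hT : Tame B l) {X T G A i : Md l U} (hX : IsTop (El l U) X T)
    (hG : AbG (El l U) G A) (hi : IsFn (El l U) i X G) :
    ∃ S, TopAb (El l U) G A S ∧ Cts (El l U) i X T G S ∧
      ∀ H C V f F, TopAb (El l U) H C V → Cts (El l U) f X T H V → Ext (El l U) G A i H C f F →
        Cts (El l U) F G S H V := by
  obtain ⟨P, hP⟩ := md_power hT U G
  obtain ⟨X, rfl⟩ := cls_surj X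
  obtain ⟨T, rfl⟩ := cls_surj T
  obtain ⟨G, rfl⟩ := cls_surj G
  obtain ⟨A, rfl⟩ := cls_surj A
  obtain ⟨i, rfl⟩ := cls_surj i
  obtain ⟨S, hS⟩ := md_sep (fun U W => ∀ T', IsTop (El l U) (cls U G) T' →
    (∀ W', Pre (El l U) (cls U X) (cls U T) (cls U G) (cls U A) (cls U i) W' → El l U W' T') →
    El l U W T') U P
  have top : IsTop (El l U) (cls U G) S := by
    refine ⟨fun V hV => (hP V).1 ((hS V).1 hV).1,
      (hS _).2 ⟨(hP _).2 fun _ => id, fun T' h _ => h.2.1⟩,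
      fun V V' Z a b c => (hS Z).2 ⟨(hP Z).2 fun w hw => (hP V).1 ((hS V).1 a).1 w ((c w).1 hw).1,
        fun T' h h' => h.2.2.1 V V' Z (((hS V).1 a).2 T' h h') (((hS V').1 b).2 T' h h') c⟩,
      fun Y Z a c => (hS Z).2 ⟨(hP Z).2 fun w hw => ?_,
        fun T' h h' => h.2.2.2 Y Z (fun V hV => ((hS V).1 (a V hV)).2 T' h h') c⟩⟩
    obtain ⟨V, h1, h2⟩ := (c w).1 hw
    exact (hP V).1 ((hS V).1 (a V h1)).1 w h2
  have psub : ∀ W, Pre (El l U) (cls U X) (cls U T) (cls U G) (cls U A) (cls U i) W →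
      El l U W P := by
    rintro W ⟨H, C, V, f, F, O, -, -, h3, -, h5⟩
    refine (hP W).2 fun w hw => ?_
    obtain ⟨z, -, hz⟩ := (h5 w).1 hw
    exact (h3.1.mem hz).1
  have pre : ∀ W, Pre (El l U) (cls U X) (cls U T) (cls U G) (cls U A) (cls U i) W →
      El l U W S := fun W h => (hS W).2 ⟨psub W h, fun T' _ h' => h' W h⟩
  obtain ⟨S, rfl⟩ := cls_surj S
  refine ⟨cls U S, ⟨hG.1, hG.2.1, hG.2.2.1, hG.2.2.2, top, ?_⟩, ⟨hi, ?_⟩,
    fun H C V f F a b c => ⟨c.1, fun O W d e => pre W ⟨H, C, V, f, F, O, a, b, c, d, e⟩⟩⟩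
  · obtain ⟨T2, h2⟩ := md_sep (fun U W => ∀ x y z, El l U y (cls U G) → El l U z (cls U G) →
      Op (El l U) (cls U A) z y x → El l U z W → ∃ V V', El l U V (cls U S) ∧ El l U V' (cls U S) ∧
        El l U x V ∧ El l U y V' ∧ ∀ x' y' z', El l U x' V → El l U y' V' → El l U z' (cls U G) →
          Op (El l U) (cls U A) z' y' x' → El l U z' W) U P
    have cl : ∀ x y z, El l U y (cls U G) → El l U z (cls U G) → Op (El l U) (cls U A) z y x →
        El l U x (cls U G) := fun x y z a b c => by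
      obtain ⟨w, h1, h2⟩ := hG.1 z y b a
      exact (h2 x).1 c ▸ h1
    have t2 : IsTop (El l U) (cls U G) T2 := by
      refine ⟨fun V hV => (hP V).1 ((h2 V).1 hV).1,
        (h2 _).2 ⟨(hP _).2 fun _ => id, fun x y z a b c _ =>
          ⟨_, _, top.2.1, top.2.1, cl x y z a b c, a, fun _ _ _ _ _ h _ => h⟩⟩,
        fun V V' Z a b c => (h2 Z).2 ⟨(hP Z).2 fun w hw =>
          (hP V).1 ((h2 V).1 a).1 w ((c w).1 hw).1, fun x y z p q r s => ?_⟩,
        fun Y Z a c => (h2 Z).2 ⟨(hP Z).2 fun w hw => ?_, fun x y z p q r s => ?_⟩⟩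
      · obtain ⟨V1, W1, a1, a2, a3, a4, a5⟩ := ((h2 V).1 a).2 x y z p q r ((c z).1 s).1
        obtain ⟨V2, W2, b1, b2, b3, b4, b5⟩ := ((h2 V').1 b).2 x y z p q r ((c z).1 s).2
        obtain ⟨V3, c1⟩ := md_inter V1 V2
        obtain ⟨W3, c2⟩ := md_inter W1 W2
        exact ⟨V3, W3, top.2.2.1 _ _ _ a1 b1 c1, top.2.2.1 _ _ _ a2 b2 c2, (c1 x).2 ⟨a3, b3⟩,
          (c2 y).2 ⟨a4, b4⟩, fun x' y' z' d e f g => (c z').2
            ⟨a5 x' y' z' ((c1 x').1 d).1 ((c2 y').1 e).1 f g,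
              b5 x' y' z' ((c1 x').1 d).2 ((c2 y').1 e).2 f g⟩⟩
      · obtain ⟨V, h1, h3⟩ := (c w).1 hw
        exact (hP V).1 ((h2 V).1 (a V h1)).1 w h3
      · obtain ⟨V, h1, h3⟩ := (c z).1 s
        obtain ⟨V1, W1, a1, a2, a3, a4, a5⟩ := ((h2 V).1 (a V h1)).2 x y z p q r h3
        exact ⟨V1, W1, a1, a2, a3, a4, fun x' y' z' d e f g =>
          (c z').2 ⟨V, h1, a5 x' y' z' d e f g⟩⟩
    intro x y z W a b c d e
    refine ((h2 W).1 (((hS W).1 d).2 T2 t2 fun W' h => (h2 W').2 ⟨psub W' h, ?_⟩)).2 x y z a b c e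
    obtain ⟨H, C, V, f, F, O, k1, k2, k3, k4, k5⟩ := h
    intro x y z a b c e
    obtain ⟨z0, e1, e2⟩ := (k5 z).1 e
    obtain ⟨x0, -, e3⟩ := k3.1.total (cl x y z a b c)
    obtain ⟨y0, e5, e4⟩ := k3.1.total a
    obtain ⟨V1, W1, a1, a2, a3, a4, a5⟩ := k1.2.2.2.2.2 x0 y0 z0 O e5 (k3.1.mem e2).2
      (k3.2.1 _ _ _ _ _ _ c e2 e4 e3) k4 e1
    obtain ⟨V2, b1⟩ := md_pre k3.1 V1
    obtain ⟨W2, b2⟩ := md_pre k3.1 W1
    refine ⟨V2, W2, pre _ ⟨H, C, V, f, F, V1, k1, k2, k3, a1, b1⟩,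
      pre _ ⟨H, C, V, f, F, W1, k1, k2, k3, a2, b2⟩, (b1 x).2 ⟨x0, a3, e3⟩, (b2 y).2 ⟨y0, a4, e4⟩,
      fun x' y' z' p q r s => ?_⟩
    obtain ⟨x1, p1, p2⟩ := (b1 x').1 p
    obtain ⟨y1, q1, q2⟩ := (b2 y').1 q
    obtain ⟨z1, r1, r2⟩ := k3.1.total r
    exact (k5 z').2 ⟨z1, a5 x1 y1 z1 p1 q1 r1 (k3.2.1 _ _ _ _ _ _ s r2 q2 p2), r2⟩
  · obtain ⟨T1, h1⟩ := md_sep (fun U V => ∀ x y, Maps (El l U) (cls U i) x y → El l U y V →
      ∃ W, El l U W (cls U T) ∧ El l U x W ∧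
        ∀ x' y', El l U x' W → Maps (El l U) (cls U i) x' y' → El l U y' V) U P
    have t1 : IsTop (El l U) (cls U G) T1 := by
      refine ⟨fun V hV => (hP V).1 ((h1 V).1 hV).1,
        (h1 _).2 ⟨(hP _).2 fun _ => id, fun x y a _ =>
          ⟨_, hX.2.1, (hi.mem a).1, fun _ _ _ h => (hi.mem h).2⟩⟩,
        fun V V' Z a b c => (h1 Z).2 ⟨(hP Z).2 fun w hw =>
          (hP V).1 ((h1 V).1 a).1 w ((c w).1 hw).1, fun x y p s => ?_⟩,
        fun Y Z a c => (h1 Z).2 ⟨(hP Z).2 fun w hw => ?_, fun x y p s => ?_⟩⟩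
      · obtain ⟨V1, a1, a2, a3⟩ := ((h1 V).1 a).2 x y p ((c y).1 s).1
        obtain ⟨V2, b1, b2, b3⟩ := ((h1 V').1 b).2 x y p ((c y).1 s).2
        obtain ⟨V3, c1⟩ := md_inter V1 V2
        exact ⟨V3, hX.2.2.1 _ _ _ a1 b1 c1, (c1 x).2 ⟨a2, b2⟩, fun x' y' d e => (c y').2
          ⟨a3 x' y' ((c1 x').1 d).1 e, b3 x' y' ((c1 x').1 d).2 e⟩⟩
      · obtain ⟨V, h2, h3⟩ := (c w).1 hw
        exact (hP V).1 ((h1 V).1 (a V h2)).1 w h3
      · obtain ⟨V, h2, h3⟩ := (c y).1 s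
        obtain ⟨V1, a1, a2, a3⟩ := ((h1 V).1 (a V h2)).2 x y p h3
        exact ⟨V1, a1, a2, fun x' y' d e => (c y').2 ⟨V, h2, a3 x' y' d e⟩⟩
    intro V W a b
    have key : El l U V T1 := by
      refine ((hS V).1 a).2 T1 t1 fun W' h => (h1 W').2 ⟨psub W' h, ?_⟩
      obtain ⟨H, C, V, f, F, O, k1, k2, k3, k4, k5⟩ := h
      intro x y p s
      obtain ⟨z0, e1, e2⟩ := (k5 y).1 s
      obtain ⟨z1, -, e3⟩ := k2.1.total (hi.mem p).1
      obtain rfl : z0 = z1 := k3.1.uniq e2 (k3.2.2 x y z1 p e3)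
      obtain ⟨W1, b1⟩ := md_pre k2.1 O
      refine ⟨W1, k2.2 O W1 k4 b1, (b1 x).2 ⟨z0, e1, e3⟩, fun x' y' d e => ?_⟩
      obtain ⟨z2, d1, d2⟩ := (b1 x').1 d
      exact (k5 y').2 ⟨z2, d1, k3.2.2 x' y' z2 e d2⟩
    refine open_of_nhds hX fun x hx => ?_
    obtain ⟨y, y1, y2⟩ := (b x).1 hx
    obtain ⟨W1, a1, a2, a3⟩ := ((h1 V).1 key).2 x y y2 y1
    refine ⟨W1, a1, a2, fun x' hx' => ?_⟩
    obtain ⟨y', -, e⟩ := hi.total (hX.1 W1 a1 x' hx')
    exact (b x').2 ⟨y', a3 x' y' hx' e, e⟩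

end Pool.Agent.Lib.MP_5ffd28_gt.FE
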