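import Pool.Agent.Lib.MP_5ffd28_gt.FE.Top

/-! Evaluation of signed words in an internal abelian group. -/

namespace Pool.Agent.Lib.MP_5ffd28_gt.FE

open Pool.Agent.Shared.Forcing Pool.Agent.Lib.MP_23bd8d_gt Pool.Agent.Lib.MP_5ffd28_gt.Cohen

universe u v

variable {M : Type u} {E : M → M → Prop} {H C V : M}

/-- the elements of an internal group -/
structure Car (_h : TopAb E H C V) : Type u where
  val : M
  mem : E val H

theorem Car.ext' {h : TopAb E H C V} {a b : Car h} (e : a.1 = b.1) : a = b := by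
  cases a; cases b; cases e; rfl

noncomputable instance (h : TopAb E H C V) : Add (Car h) :=
  ⟨fun a b => ⟨(h.1 a.1 b.1 a.2 b.2).choose, (h.1 a.1 b.1 a.2 b.2).choose_spec.1⟩⟩

theorem op_iff {h : TopAb E H C V} (a b : Car h) (c : M) : Op E C a.1 b.1 c ↔ c = (a + b).1 :=
  (h.1 a.1 b.1 a.2 b.2).choose_spec.2 c

noncomputable instance (h : TopAb E H C V) : Zero (Car h) :=
  ⟨⟨h.2.2.2.1.choose, h.2.2.2.1.choose_spec.1⟩⟩

noncomputable instance (h : TopAb E H C V) : Neg (Car h) :=
  ⟨fun a => ⟨(h.2.2.2.1.choose_spec.2 a.1 a.2).2.choose,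
    (h.2.2.2.1.choose_spec.2 a.1 a.2).2.choose_spec.1⟩⟩

noncomputable instance (h : TopAb E H C V) : AddCommGroup (Car h) :=
  { AddGroup.ofRightAxioms
      (fun a b c : Car h => Car.ext' ((op_iff a (b + c) _).1 (h.2.1 a.1 b.1 c.1 _ _ _ a.2 b.2 c.2
        ((op_iff a b _).2 rfl) ((op_iff (a + b) c _).2 rfl) ((op_iff b c _).2 rfl))))
      (fun a : Car h => Car.ext' ((op_iff a 0 _).1 (h.2.2.2.1.choose_spec.2 a.1 a.2).1).symm)
      (fun a : Car h => Car.ext' ((op_iff a (-a) _).1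
        (h.2.2.2.1.choose_spec.2 a.1 a.2).2.choose_spec.2).symm) with
    add_comm := fun a b => Car.ext' ((op_iff b a _).1
      (h.2.2.1 a.1 b.1 _ a.2 b.2 ((op_iff a b _).2 rfl))) }

variable (E) in
/-- the signed word `w` in the points `π j` has value `z` under `f` -/
def Ev {J : Type v} (π : J → M) (H C f : M) : List (J × Bool) → M → Prop
  | [], z => E z H ∧ Op E C z z z
  | p :: w, z => ∃ y u, Maps E f (π p.1) y ∧ Ev π H C f w u ∧ E z H ∧
      (p.2 = true → Op E C y u z) ∧ (p.2 = false → Op E C z y u)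

open Classical in
/-- the value of `f` at `a` -/
noncomputable def phi (h : TopAb E H C V) (f a : M) : Car h :=
  if hx : ∃ y, E y H ∧ Maps E f a y then ⟨hx.choose, hx.choose_spec.1⟩ else 0

/-- the sum of a signed word -/
def sg {J : Type v} {Γ : Type u} [AddCommGroup Γ] (φ : J → Γ) (w : List (J × Bool)) : Γ :=
  (w.map fun p => if p.2 = true then φ p.1 else -φ p.1).sum

/-- the inverse word -/
def ng {J : Type v} (w : List (J × Bool)) : List (J × Bool) := w.map fun p => (p.1, !p.2)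

section
variable {J : Type v} {Γ : Type u} [AddCommGroup Γ] (φ : J → Γ)

@[simp] theorem sg_nil : sg φ [] = 0 := rfl

@[simp] theorem sg_true (j : J) (w : List (J × Bool)) : sg φ ((j, true) :: w) = φ j + sg φ w := by
  simp [sg]

@[simp] theorem sg_false (j : J) (w : List (J × Bool)) :
    sg φ ((j, false) :: w) = -φ j + sg φ w := by
  simp [sg]

@[simp] theorem sg_append (v w : List (J × Bool)) : sg φ (v ++ w) = sg φ v + sg φ w := by
  simp [sg]

@[simp] theorem sg_ng (w : List (J × Bool)) : sg φ (ng w) = -sg φ w := by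
  induction w with
  | nil => simp [ng]
  | cons p w ih =>
    obtain ⟨j, b⟩ := p
    have e : ng ((j, b) :: w) = (j, !b) :: ng w := rfl
    rw [e]
    cases b <;> simp [ih, add_comm]

end

theorem ev_iff {J : Type v} {π : J → M} {f : M} (h : TopAb E H C V) (w : List (J × Bool))
    (hw : ∀ p ∈ w, ∀ y, Maps E f (π p.1) y ↔ y = (phi h f (π p.1)).1) (z : M) :
    Ev E π H C f w z ↔ z = (sg (fun j => phi h f (π j)) w).1 := by
  induction w generalizing z with
  | nil =>
    refine ⟨fun ⟨a, b⟩ => ?_, fun e => e ▸ ⟨Car.mem _, (op_iff _ _ _).2 (by simp)⟩⟩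
    have e : (⟨z, a⟩ : Car h) = (⟨z, a⟩ : Car h) + (⟨z, a⟩ : Car h) :=
      Car.ext' ((op_iff (h := h) ⟨z, a⟩ ⟨z, a⟩ z).1 b)
    exact congrArg Car.val (left_eq_add.1 e)
  | cons p w ih =>
    obtain ⟨j, b⟩ := p
    have ih' := ih fun p hp => hw p (List.mem_cons_of_mem _ hp)
    have h0 := hw (j, b) List.mem_cons_self
    simp only [Ev, ih', h0]
    cases b
    · rw [sg_false]
      refine ⟨?_, fun e => ⟨_, _, rfl, rfl, e ▸ Car.mem _, by simp, fun _ => ?_⟩⟩
      · rintro ⟨_, _, rfl, rfl, a, -, c⟩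
        have e : sg (fun j => phi h f (π j)) w = (⟨z, a⟩ : Car h) + phi h f (π j) :=
          Car.ext' ((op_iff (h := h) ⟨z, a⟩ _ _).1 (c rfl))
        rw [e, neg_add_cancel_comm_assoc]
      · rw [e, op_iff]
        congr 1
        abel
    · rw [sg_true]
      refine ⟨?_, fun e => ⟨_, _, rfl, rfl, e ▸ Car.mem _, fun _ => ?_, by simp⟩⟩
      · rintro ⟨_, _, rfl, rfl, -, c, -⟩
        exact (op_iff _ _ _).1 (c rfl)
      · exact (op_iff _ _ _).2 e

end Pool.Agent.Lib.MP_5ffd28_gt.FE
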